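import Pool.Agent.Y303.EJ.Stm

/-!
Numerical facts on the parameters (job EJ-NUM).
-/

set_option autoImplicit false

open Set Filter Topology MeasureTheory Metric

namespace Pool.Agent.Y44.EJ

open Pool.Agent.Y303.EJ
open Pool.Agent.Y6.N (ph)

section

variable {η : ℝ} {lm L C ℓ : ℕ → ℝ} {B : ℕ → ℕ → ℝ}

lemma dl_pos (q : SeqE η lm L C ℓ B) (n : ℕ) : 0 < dl η n := by
  have := q.η0
  unfold dl
  positivity

lemma dl_le (q : SeqE η lm L C ℓ B) (n : ℕ) : dl η n ≤ 1 / 100 := by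
  have h1 := q.η0
  have h2 := q.η1
  unfold dl
  refine le_trans ?_ h2
  exact div_le_self h1.le (one_le_pow₀ (by norm_num))

lemma dl_succ (η : ℝ) (n : ℕ) : dl η (n + 1) = dl η n / 4 := by
  unfold dl
  rw [pow_succ]
  field_simp

lemma dl4_le (q : SeqE η lm L C ℓ B) (n : ℕ) : dl η n ^ 4 ≤ dl η n := by
  have h1 := dl_pos q n
  have h2 := dl_le q n
  calc dl η n ^ 4 ≤ dl η n ^ 1 := pow_le_pow_of_le_one h1.le (by linarith) (by norm_num)
    _ = _ := pow_one _

lemma lm_pos (q : SeqE η lm L C ℓ B) (n : ℕ) : 0 < lm n := by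
  have h1 := q.lm_big n
  have h2 := dl_pos q n
  have h3 : 0 < dl η n ^ 4 * lm n := lt_of_lt_of_le (by norm_num) h1
  exact (pos_iff_pos_of_mul_pos h3).mp (by positivity)

lemma lmd' (q : SeqE η lm L C ℓ B) (n : ℕ) : 10 ^ 30 ≤ dl η n * lm n :=
  (q.lm_big n).trans (mul_le_mul_of_nonneg_right (dl4_le q n) (lm_pos q n).le)

lemma lm1' (q : SeqE η lm L C ℓ B) (n : ℕ) : 10 ^ 30 ≤ lm n := by
  refine (lmd' q n).trans (mul_le_of_le_one_left (lm_pos q n).le ?_)
  have := dl_le q n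
  linarith

lemma L_ge (q : SeqE η lm L C ℓ B) (n : ℕ) : 1 ≤ L n := by
  induction n with
  | zero => exact q.L0
  | succ n ih =>
    rw [← q.lm_succ n]
    have h1 : (1 : ℝ) ≤ lm (n + 1) := le_trans (by norm_num) (lm1' q (n + 1))
    calc (1 : ℝ) = 1 * 1 := (one_mul 1).symm
      _ ≤ lm (n + 1) * L n := mul_le_mul h1 ih zero_le_one (by linarith)

lemma L_step (q : SeqE η lm L C ℓ B) (n : ℕ) : 10 ^ 30 * L n ≤ dl η (n + 1) * L (n + 1) := by
  rw [← q.lm_succ n, ← mul_assoc]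
  exact mul_le_mul_of_nonneg_right (lmd' q (n + 1)) (by linarith [L_ge q n])

lemma L_step' (q : SeqE η lm L C ℓ B) (n : ℕ) : 10 ^ 30 * L n ≤ L (n + 1) := by
  refine (L_step q n).trans (mul_le_of_le_one_left (by linarith [L_ge q (n + 1)]) ?_)
  have := dl_le q (n + 1)
  linarith

lemma L_mono (q : SeqE η lm L C ℓ B) : Monotone L := by
  refine monotone_nat_of_le_succ fun n => ?_
  have h1 := L_step' q n
  have h2 := L_ge q n
  linarith

lemma lm_step (q : SeqE η lm L C ℓ B) (n : ℕ) : 10 ^ 8 * lm n ≤ dl η (n + 1) * lm (n + 1) :=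
  (q.lm_grow n).trans (mul_le_mul_of_nonneg_right (dl4_le q (n + 1)) (lm_pos q (n + 1)).le)

lemma lm_step' (q : SeqE η lm L C ℓ B) (n : ℕ) : 10 ^ 8 * lm n ≤ lm (n + 1) := by
  refine (lm_step q n).trans (mul_le_of_le_one_left (lm_pos q (n + 1)).le ?_)
  have := dl_le q (n + 1)
  linarith

lemma lm_sum (q : SeqE η lm L C ℓ B) (n : ℕ) : ∑ i ∈ Finset.range (n + 1), lm i ≤ 2 * lm n := by
  induction n with
  | zero =>
    have := lm_pos q 0
    simp
    linarith
  | succ n ih =>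
    rw [Finset.sum_range_succ]
    have h1 := lm_step' q n
    have h2 := lm_pos q n
    linarith

lemma one_le_Ld (q : SeqE η lm L C ℓ B) (n : ℕ) : 1 ≤ L n / dl η n := by
  rw [le_div_iff₀ (dl_pos q n), one_mul]
  have h1 := L_ge q n
  have h2 := dl_le q n
  linarith

lemma Ld_le (q : SeqE η lm L C ℓ B) (n : ℕ) : L (n + 5) / dl η (n + 5) ≤ Q η lm n := by
  have h1 := one_le_Ld q (n + 5)
  calc L (n + 5) / dl η (n + 5) = (L (n + 5) / dl η (n + 5)) ^ 1 := (pow_one _).symm
    _ ≤ (L (n + 5) / dl η (n + 5)) ^ 10 := pow_le_pow_right₀ h1 (by norm_num)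
    _ ≤ _ := q.exp_big n

lemma QL' (q : SeqE η lm L C ℓ B) (n k : ℕ) (hk : k ≤ n + 5) : L k ≤ Q η lm n := by
  refine (L_mono q hk).trans (le_trans ?_ (Ld_le q n))
  have h1 := L_ge q (n + 5)
  have h2 := dl_le q (n + 5)
  have h3 := dl_pos q (n + 5)
  rw [le_div_iff₀ h3]
  exact mul_le_of_le_one_right (by linarith) (by linarith)

lemma lm_le_L (q : SeqE η lm L C ℓ B) (n : ℕ) : lm (n + 1) ≤ L (n + 1) := by
  rw [← q.lm_succ n]
  exact le_mul_of_one_le_right (lm_pos q (n + 1)).le (L_ge q n)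

lemma Qlm' (q : SeqE η lm L C ℓ B) (n k : ℕ) (hk : k ≤ n + 5) : lm k ≤ Q η lm n := by
  cases k with
  | zero =>
    have h1 := lm_step' q 0
    have h2 := lm_pos q 0
    have h3 := lm_le_L q 0
    have h4 := QL' q n 1 (by omega)
    have h5 : lm 0 ≤ lm (0 + 1) := by linarith
    exact h5.trans (h3.trans h4)
  | succ k => exact (lm_le_L q k).trans (QL' q n (k + 1) hk)

lemma Qd' (q : SeqE η lm L C ℓ B) (n k : ℕ) (hk : k ≤ n + 5) : 1 / dl η k ≤ Q η lm n := by
  refine le_trans ?_ (Ld_le q n)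
  have h1 := L_ge q (n + 5)
  have h3 := dl_pos q (n + 5)
  have h4 := dl_pos q k
  have h5 : dl η (n + 5) ≤ dl η k := by
    unfold dl
    exact div_le_div_of_nonneg_left q.η0.le (by positivity)
      (pow_le_pow_right₀ (by norm_num) hk)
  calc 1 / dl η k ≤ 1 / dl η (n + 5) := one_div_le_one_div_of_le h3 h5
    _ ≤ L (n + 5) / dl η (n + 5) := div_le_div_of_nonneg_right h1 h3.le

lemma exp_ge {y : ℝ} (hy : 0 ≤ y) : y ^ 2 / 2 ≤ Real.exp y := by
  have := Real.quadratic_le_exp_of_nonneg hy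
  linarith

theorem t_NUM : S_NUM := by
  intro η lm L C ℓ B q
  refine ⟨dl_pos q, dl_le q, dl_succ η, lm1' q, lmd' q, L_ge q, L_step q, L_mono q, ?_, ?_, ?_,
    QL' q, Qlm' q, Qd' q, ?_, ?_, ?_, ?_, ?_, ?_⟩
  · intro n
    induction n with
    | zero =>
      have := L_ge q 0
      simp
      linarith
    | succ n ih =>
      rw [Finset.sum_range_succ]
      have h1 := L_step' q n
      have h2 := L_ge q n
      linarith
  · intro n
    have h1 := lm_sum q n
    have h2 := lm_step q n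
    have h3 := lm_pos q n
    linarith
  · intro n
    have h1 := lmd' q n
    have h2 : (10 : ℝ) ^ 24 ≤ dl η n * lm n / 10 ^ 6 := by
      rw [le_div_iff₀ (by norm_num)]
      refine le_trans ?_ h1
      norm_num
    have h3 := exp_ge (le_trans (by norm_num) h2)
    have h4 : ((10 : ℝ) ^ 24) ^ 2 ≤ (dl η n * lm n / 10 ^ 6) ^ 2 :=
      pow_le_pow_left₀ (by norm_num) h2 2
    unfold Q
    refine le_trans ?_ h3
    refine le_trans ?_ (div_le_div_of_nonneg_right h4 (by norm_num))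
    norm_num
  · intro n k α β h
    unfold Q
    rw [← Real.exp_nat_mul, ← Real.exp_add]
    apply Real.exp_le_exp.2
    have h1 := mul_le_mul_of_nonneg_right h (lm_pos q n).le
    have h2 : (k : ℝ) * (dl η n * lm n / 10 ^ 6) + α * lm n =
        ((k : ℝ) * dl η n / 10 ^ 6 + α) * lm n := by ring
    rw [h2]
    exact h1
  · intro n
    exact lt_of_lt_of_le (Real.exp_pos _) (q.C_lo n)
  · intro n
    refine (q.C_hi n).trans (Real.exp_le_exp.2 ?_)
    have h1 := Real.pi_gt_d2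
    have h2 := dl_le q n
    have h3 : 3 / 2 ≤ Real.pi / 2 - dl η n / 1000 := by linarith
    have h4 := mul_le_mul_of_nonneg_right h3 (lm_pos q n).le
    linarith
  · intro n
    unfold ph
    apply Real.exp_le_exp.2
    have h1 := lm_step' q n
    have h2 := lm_pos q n
    linarith
  · -- e1
    have hQ1 := QL' q 0 0 (by omega)
    have hQ2 := Qlm' q 0 0 (by omega)
    have h1 := lm1' q 0
    have h2 := dl_le q 0
    have h3 : e0 lm * (L 0 + lm 0) ≤ 4 * Real.exp (-(lm 0 / 4)) := by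
      unfold e0
      calc 2 * Real.exp (-(lm 0 / 2)) * (L 0 + lm 0)
          ≤ 2 * Real.exp (-(lm 0 / 2)) * (Q η lm 0 + Q η lm 0) := by
            apply mul_le_mul_of_nonneg_left _ (by positivity)
            linarith
        _ = 4 * (Real.exp (-(lm 0 / 2)) * Real.exp (dl η 0 * lm 0 / 10 ^ 6)) := by
            unfold Q; ring
        _ = 4 * Real.exp (-(lm 0 / 2) + dl η 0 * lm 0 / 10 ^ 6) := by rw [Real.exp_add]
        _ ≤ 4 * Real.exp (-(lm 0 / 4)) := by
            apply mul_le_mul_of_nonneg_left _ (by norm_num)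
            apply Real.exp_le_exp.2
            have h5 : dl η 0 * lm 0 ≤ 1 / 100 * lm 0 :=
              mul_le_mul_of_nonneg_right h2 (lm_pos q 0).le
            have h6 := lm_pos q 0
            linarith
    refine h3.trans ?_
    have h4 : (10 : ℝ) ^ 29 ≤ lm 0 / 4 := by linarith
    have h5 := exp_ge (le_trans (by norm_num) h4)
    have h6 : ((10 : ℝ) ^ 29) ^ 2 ≤ (lm 0 / 4) ^ 2 := pow_le_pow_left₀ (by norm_num) h4 2
    have h7 : 4 * (10 : ℝ) ^ 30 ≤ Real.exp (lm 0 / 4) := by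
      refine le_trans ?_ h5
      refine le_trans ?_ (div_le_div_of_nonneg_right h6 (by norm_num))
      norm_num
    rw [Real.exp_neg, ← div_eq_mul_inv, div_le_div_iff₀ (Real.exp_pos _) (by norm_num)]
    linarith
  · intro n
    have hd := dl_pos q n
    have hd1 := dl_le q n
    have h34 : dl η n ^ 4 ≤ dl η n ^ 3 :=
      pow_le_pow_of_le_one hd.le (by linarith) (by norm_num)
    cases n with
    | zero =>
      have h1 := q.ℓ_zero
      have h2 := q.ℓ_nonneg 0
      have h3 : (1 : ℝ) ≤ lm 0 := le_trans (by norm_num) (lm1' q 0)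
      have h4 : ℓ 0 ≤ ℓ 0 * lm 0 := le_mul_of_one_le_right h2 h3
      have h5 : dl η 0 ^ 4 * L 0 ≤ dl η 0 ^ 3 * L 0 :=
        mul_le_mul_of_nonneg_right h34 (by linarith [L_ge q 0])
      linarith
    | succ n =>
      have h1 := q.ℓ_succ n
      have h5 : dl η (n + 1) ^ 4 * L n ≤ dl η (n + 1) ^ 3 * L (n + 1) :=
        mul_le_mul h34 (L_mono q (Nat.le_succ n)) (by linarith [L_ge q n]) (by positivity)
      exact h1.trans h5

end

end Pool.Agent.Y44.EJ
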